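import Pool.Agent.H6.SSP

namespace Pool.Agent.Results.MP_2eee52_co.Q1False
open Pool.Agent.H6.SSP Matrix

/-- `G` with a new vertex `none` joined to `v` only. -/
def pend {V : Type} (G : SimpleGraph V) (v : V) : SimpleGraph (Option V) :=
  SimpleGraph.fromRel fun a b =>
    (∃ x y, a = some x ∧ b = some y ∧ G.Adj x y) ∨ (a = none ∧ b = some v)

instance : DecidableRel (pend G8 7).Adj := fun i j => by unfold pend; infer_instance

def f : Option (Fin 8) → Fin 9 := fun a => a.elim 8 Fin.castSucc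

def A : Matrix (Option (Fin 8)) (Option (Fin 8)) ℤ := Matrix.submatrix
  !![9, 6, 0, 0, 0, 0, 0, 0, 0; 6, 0, 6, 0, 0, 0, 0, 0, 0; 0, 6, -9, 6, 0, 0, 0, 0, 0;
    0, 0, 6, 12, 4, 0, 4, 0, 0; 0, 0, 0, 4, 0, 1, 0, 0, 0; 0, 0, 0, 0, 1, 12, 4, 0, 0;
    0, 0, 0, 4, 0, 4, 0, 6, 0; 0, 0, 0, 0, 0, 0, 6, 3, 12; 0, 0, 0, 0, 0, 0, 0, 12, -3] f f

def X : Matrix (Option (Fin 8)) (Option (Fin 8)) ℤ := Matrix.submatrix
  !![0, 0, 0, 0, -12, 36, 12, -30, -31; 0, 0, 0, 0, 24, 24, -24, -20, 2;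
    0, 0, 0, 0, 16, 0, -16, 0, -10; 0, 0, 0, 0, 0, -32, 0, -16, -12;
    -12, 24, 16, 0, 0, 0, -32, 0, 12; 36, 24, 0, -32, 0, 0, 0, 16, 12;
    12, -24, -16, 0, -32, 0, 0, 0, 0; -30, -20, 0, -16, 0, 16, 0, 0, 0;
    -31, 2, -10, -12, 12, 12, 0, 0, 0] f f

theorem result : ¬ ∀ (n : ℕ) (G : SimpleGraph (Fin n)) (v : Fin n), SSPGraph G →
    (G.neighborSet v).ncard = 1 → SSPGraph (pend G v) := by
  intro h
  have l : G8.neighborSet 7 = {6} := by
    ext x; revert x; simp only [SimpleGraph.mem_neighborSet, Set.mem_singleton_iff]; decide +kernel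
  have s1 : ∀ i j, A j i = A i j := by decide +kernel
  have s2 : ∀ i j, X j i = X i j := by decide +kernel
  have s3 : ∀ i j, i ≠ j → (A i j ≠ 0 ↔ (pend G8 7).Adj i j) := by decide +kernel
  have s4 : ∀ i j, A i j * X i j = 0 := by decide +kernel
  have s5 : ∀ i, X i i = 0 := by decide +kernel
  have s6 : A * X = X * A := by decide +kernel
  have := h 8 G8 7 g8 (by rw [l]; simp) (A.map (Int.castRingHom ℝ))
    ⟨by ext i j; simp [s1 i j], fun i j h => by simpa using s3 i j h⟩ (X.map (Int.castRingHom ℝ))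
    (by ext i j; simp [s2 i j]) (by ext i j; simpa using s4 i j)
    (by ext i j; by_cases q : i = j <;> simp [q, s5]) (by rw [← Matrix.map_mul, ← Matrix.map_mul, s6, sub_self])
  have e := congrFun (congrFun this none) (some 1)
  have : X none (some 1) = 2 := by decide +kernel
  simp [this] at e

end Pool.Agent.Results.MP_2eee52_co.Q1False
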